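import Pool.Agent.R553.HW.Basic

/-!
# Clique minors of direct products of graphs (helper397)

If `K_m` is a minor of `G` and `H` is not bipartite, then `K_m` is a minor of the direct product
`G × H`, and of every graph which contains it.
-/

set_option autoImplicit false

namespace Pool.Agent.N397.DP

open Pool.Agent.R553.HW

variable {V W : Type}

/-- The direct (tensor, categorical) product of two graphs. -/
def dp (G : SimpleGraph V) (H : SimpleGraph W) : SimpleGraph (V × W) where
  Adj p q := G.Adj p.1 q.1 ∧ H.Adj p.2 q.2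
  symm := ⟨fun _ _ h => ⟨h.1.symm, h.2.symm⟩⟩
  loopless := ⟨fun _ h => G.irrefl h.1⟩

/-- `b` can be reached from `a` inside `T`. -/
def RT (X : SimpleGraph V) (T : Set V) (a b : V) : Prop :=
  ∃ (ha : a ∈ T) (hb : b ∈ T), (X.induce T).Reachable ⟨a, ha⟩ ⟨b, hb⟩

lemma RT.refl {X : SimpleGraph V} {T : Set V} {a : V} (h : a ∈ T) : RT X T a a := ⟨h, h, .rfl⟩

lemma RT.symm {X : SimpleGraph V} {T : Set V} {a b : V} (h : RT X T a b) : RT X T b a := by
  obtain ⟨h1, h2, h3⟩ := h
  exact ⟨h2, h1, h3.symm⟩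

lemma RT.trans {X : SimpleGraph V} {T : Set V} {a b c : V} (h : RT X T a b) (h' : RT X T b c) :
    RT X T a c := by
  obtain ⟨h1, h2, h3⟩ := h
  obtain ⟨h4, h5, h6⟩ := h'
  exact ⟨h1, h5, h3.trans h6⟩

lemma RT.adj {X : SimpleGraph V} {T : Set V} {a b : V} (h1 : a ∈ T) (h2 : b ∈ T)
    (h : X.Adj a b) : RT X T a b := by
  refine ⟨h1, h2, SimpleGraph.Adj.reachable ?_⟩
  exact h

lemma conn_of_RT {X : SimpleGraph V} {T : Set V} {a : V} (ha : a ∈ T)
    (h : ∀ b ∈ T, RT X T a b) : (X.induce T).Connected := by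
  rw [SimpleGraph.connected_iff]
  refine ⟨?_, ⟨⟨a, ha⟩⟩⟩
  rintro ⟨x, hx⟩ ⟨y, hy⟩
  obtain ⟨_, _, h3⟩ := h x hx
  obtain ⟨_, _, h6⟩ := h y hy
  exact h3.symm.trans h6

lemma RT_of_conn {X : SimpleGraph V} {T : Set V} (h : (X.induce T).Connected) {a b : V}
    (ha : a ∈ T) (hb : b ∈ T) : RT X T a b := ⟨ha, hb, h.preconnected _ _⟩

/-- the box over `B` -/
def box (B : Set V) (S : Set W) : Set (V × W) := {q | q.1 ∈ B ∧ q.2 ∈ S}

variable {G : SimpleGraph V} {H : SimpleGraph W} {X : SimpleGraph (V × W)}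

lemma walk_two (hX : ∀ p q : V × W, G.Adj p.1 q.1 → H.Adj p.2 q.2 → X.Adj p q) {B : Set V}
    {S : Set W} {x y : W} (p : H.Walk x y) :
    ∀ (_ : ∀ z ∈ p.support, z ∈ S) (u v : V) (_ : u ∈ B) (_ : v ∈ B) (_ : G.Adj u v),
      (Even p.length → RT X (box B S) (u, x) (u, y)) ∧
        (Odd p.length → RT X (box B S) (u, x) (v, y)) := by
  induction p with
  | nil =>
    intro hS u v hu hv huv
    refine ⟨fun _ => RT.refl ⟨hu, hS _ (by simp)⟩, fun h => ?_⟩
    simp at h
  | @cons x z y h p ih =>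
    intro hS u v hu hv huv
    have hx : x ∈ S := hS _ (by simp)
    have hz : z ∈ S := hS _ (by simp)
    obtain ⟨h1, h2⟩ := ih (fun t ht => hS t (by simp [ht])) v u hv hu huv.symm
    have h0 : RT X (box B S) (u, x) (v, z) := RT.adj ⟨hu, hx⟩ ⟨hv, hz⟩ (hX _ _ huv h)
    rw [SimpleGraph.Walk.length_cons]
    constructor
    · intro he
      rw [Nat.even_add_one, Nat.not_even_iff_odd] at he
      exact h0.trans (h2 he)
    · intro ho
      rw [Nat.odd_add_one, Nat.not_odd_iff_even] at ho
      exact h0.trans (h1 ho)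

lemma conn_box [DecidableEq W]
    (hX : ∀ p q : V × W, G.Adj p.1 q.1 → H.Adj p.2 q.2 → X.Adj p q) {B : Set V}
    (hB : (G.induce B).Connected) (hn : ¬ B.Subsingleton) {a : W} (w : H.Walk a a)
    (hw : Odd w.length) : (X.induce (box B {z | z ∈ w.support})).Connected := by
  set S : Set W := {z | z ∈ w.support} with hS
  -- every vertex of `B` has a neighbour in `B`
  have hnb : ∀ u ∈ B, ∃ v ∈ B, G.Adj u v := by
    intro u hu
    have : ∃ v ∈ B, v ≠ u := by
      by_contra hc
      push Not at hc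
      exact hn fun x hx y hy => (hc x hx).trans (hc y hy).symm
    obtain ⟨v, hv, hvu⟩ := this
    obtain ⟨p⟩ := hB.preconnected ⟨u, hu⟩ ⟨v, hv⟩
    cases p with
    | nil => exact absurd rfl hvu
    | @cons _ t _ h p => exact ⟨t, t.2, h⟩
  have haS : a ∈ S := by simp [hS]
  have base : ∀ u ∈ B, ∀ v ∈ B, G.Adj u v → RT X (box B S) (u, a) (v, a) := by
    intro u hu v hv huv
    exact (walk_two hX w (fun z hz => hz) u v hu hv huv).2 hw
  have fib : ∀ u ∈ B, ∀ x ∈ S, RT X (box B S) (u, a) (u, x) := by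
    intro u hu x hx
    obtain ⟨v, hv, huv⟩ := hnb u hu
    have hx' : x ∈ w.support := hx
    have hsub : ∀ z ∈ (w.takeUntil x hx').support, z ∈ S := fun z hz =>
      w.support_takeUntil_subset_support hx' hz
    rcases Nat.even_or_odd (w.takeUntil x hx').length with h | h
    · exact (walk_two hX _ hsub u v hu hv huv).1 h
    · exact (base u hu v hv huv).trans ((walk_two hX _ hsub v u hv hu huv.symm).2 h)
  obtain ⟨⟨u0, hu0⟩⟩ := hB.nonempty
  have horiz : ∀ (s t : B) (_ : (G.induce B).Walk s t), RT X (box B S) ((s : V), a) ((t : V), a) := by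
    intro s t p
    induction p with
    | @nil s => exact RT.refl ⟨s.2, haS⟩
    | @cons s t r h p ih => exact (base s s.2 t t.2 h).trans ih
  refine conn_of_RT (a := (u0, a)) ⟨hu0, haS⟩ ?_
  rintro ⟨v, x⟩ ⟨hv, hx⟩
  obtain ⟨p⟩ := hB.preconnected ⟨u0, hu0⟩ ⟨v, hv⟩
  exact (horiz _ _ p).trans (fib v hv x hx)

/-- a permutation without cycles of length one or two -/
lemma exists_perm (ι : Type) [Fintype ι] (h : 3 ≤ Fintype.card ι) :
    ∃ σ : Equiv.Perm ι, (∀ i, σ i ≠ i) ∧ ∀ i, σ (σ i) ≠ i := by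
  obtain ⟨n, hn⟩ : ∃ n, Fintype.card ι = n + 3 := ⟨Fintype.card ι - 3, by omega⟩
  have e : ι ≃ Fin (n + 3) := Fintype.equivFinOfCardEq hn
  have h1 : ∀ j : Fin (n + 3), j + 1 ≠ j := by
    intro j hj
    have := congrArg Fin.val hj
    rw [Fin.val_add] at this
    have hj' := j.2
    have h1' : ((1 : Fin (n + 3)) : ℕ) = 1 := by
      rw [Fin.val_one]
    rw [h1'] at this
    rcases Nat.lt_or_ge ((j : ℕ) + 1) (n + 3) with h | h
    · rw [Nat.mod_eq_of_lt h] at this; omega
    · have h' : (j : ℕ) + 1 = n + 3 := by omega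
      rw [h', Nat.mod_self] at this; omega
  have h2 : ∀ j : Fin (n + 3), j + 1 + 1 ≠ j := by
    intro j hj
    have := congrArg Fin.val hj
    rw [Fin.val_add, Fin.val_add] at this
    have hj' := j.2
    have h1' : ((1 : Fin (n + 3)) : ℕ) = 1 := by
      rw [Fin.val_one]
    rw [h1'] at this
    rcases Nat.lt_or_ge ((j : ℕ) + 1) (n + 3) with h | h
    · rw [Nat.mod_eq_of_lt h] at this
      rcases Nat.lt_or_ge ((j : ℕ) + 1 + 1) (n + 3) with h3 | h3
      · rw [Nat.mod_eq_of_lt h3] at this; omega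
      · have h' : (j : ℕ) + 1 + 1 = n + 3 := by omega
        rw [h', Nat.mod_self] at this; omega
    · have h' : (j : ℕ) + 1 = n + 3 := by omega
      rw [h', Nat.mod_self, Nat.mod_eq_of_lt (by omega)] at this; omega
  refine ⟨(e.trans (Equiv.addRight 1)).trans e.symm, fun i hi => ?_, fun i hi => ?_⟩
  · have := congrArg e hi
    simp at this
  · have := congrArg e hi
    simp only [Equiv.trans_apply, Equiv.apply_symm_apply, Equiv.coe_addRight] at this
    exact h2 _ this

lemma conn_pair {X : SimpleGraph V} {x y : V} (h : X.Adj x y) :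
    (X.induce ({x, y} : Set V)).Connected := by
  refine conn_of_RT (a := x) (by simp) ?_
  intro b hb
  rcases hb with rfl | hb
  · exact RT.refl (by simp)
  · rw [Set.mem_singleton_iff] at hb
    subst hb
    exact RT.adj (by simp) (by simp) h

lemma conn_single {X : SimpleGraph V} (x : V) : (X.induce ({x} : Set V)).Connected := by
  refine conn_of_RT (a := x) (by simp) ?_
  intro b hb
  rw [Set.mem_singleton_iff] at hb
  subst hb
  exact RT.refl (by simp)

/-- The branch sets over a clique. -/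
lemma clique_part (hX : ∀ p q : V × W, G.Adj p.1 q.1 → H.Adj p.2 q.2 → X.Adj p q)
    {ι : Type} [Fintype ι] (v : ι → V) (hv : ∀ i j, i ≠ j → G.Adj (v i) (v j)) {a b : W}
    (hab : H.Adj a b) :
    ∃ (f : ι → Set (V × W)) (c : ι → W),
      (∀ i, (X.induce (f i)).Connected) ∧ (∀ i j, i ≠ j → Disjoint (f i) (f j)) ∧
      (∀ i j, i ≠ j → ∃ p ∈ f i, ∃ q ∈ f j, X.Adj p q) ∧
      (∀ i, ∀ p ∈ f i, ∃ j, p.1 = v j) ∧ (∀ i, (v i, c i) ∈ f i) ∧ (∀ i, c i = a ∨ c i = b) := by
  have hinj : Function.Injective v := by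
    intro i j h
    by_contra hc
    exact (hv i j hc).ne h
  rcases Nat.lt_or_ge (Fintype.card ι) 3 with h3 | h3
  · have hne : Nonempty (ι ↪ Fin 2) := by
      apply Function.Embedding.nonempty_of_card_le
      simp; omega
    obtain ⟨e⟩ := hne
    set c : ι → W := fun i => if e i = 0 then a else b with hc
    have hcc : ∀ i j, i ≠ j → H.Adj (c i) (c j) := by
      intro i j hij
      have : e i ≠ e j := fun h => hij (e.injective h)
      by_cases hi : e i = 0
      · by_cases hj : e j = 0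
        · exact absurd (hi.trans hj.symm) this
        · simp only [hc, hi, hj, if_true, if_false]; exact hab
      · by_cases hj : e j = 0
        · simp only [hc, hi, hj, if_true, if_false]; exact hab.symm
        · exfalso; omega
    refine ⟨fun i => {(v i, c i)}, c, fun i => conn_single _, ?_, ?_, ?_, ?_, ?_⟩
    · intro i j hij
      rw [Set.disjoint_singleton]
      intro h
      exact hij (hinj (congrArg Prod.fst h))
    · intro i j hij
      exact ⟨_, rfl, _, rfl, hX _ _ (hv i j hij) (hcc i j hij)⟩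
    · intro i p hp
      rw [Set.mem_singleton_iff] at hp
      exact ⟨i, by rw [hp]⟩
    · intro i; simp
    · intro i
      by_cases hi : e i = 0
      · left; simp [hc, hi]
      · right; simp [hc, hi]
  · obtain ⟨σ, h1, h2⟩ := exists_perm ι h3
    refine ⟨fun i => {(v i, a), (v (σ i), b)}, fun _ => a, ?_, ?_, ?_, ?_, ?_, ?_⟩
    · intro i
      exact conn_pair (hX _ _ (hv _ _ (h1 i).symm) hab)
    · intro i j hij
      rw [Set.disjoint_left]
      intro p hp hq
      have hab' := hab.ne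
      rcases hp with rfl | hp <;> rcases hq with hq | hq
      · exact hij (hinj (congrArg Prod.fst hq))
      · rw [Set.mem_singleton_iff] at hq
        exact hab' (congrArg Prod.snd hq)
      · rw [Set.mem_singleton_iff] at hp
        rw [hp] at hq
        exact hab' (congrArg Prod.snd hq).symm
      · rw [Set.mem_singleton_iff] at hp hq
        rw [hp] at hq
        exact hij (σ.injective (hinj (congrArg Prod.fst hq)))
    · intro i j hij
      by_cases h : i = σ j
      · -- then `σ i ≠ j`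
        have h' : σ i ≠ j := by
          intro h'
          exact h2 j (by rw [← h, h'])
        refine ⟨(v (σ i), b), by simp, (v j, a), by simp, hX _ _ (hv _ _ h') hab.symm⟩
      · exact ⟨(v i, a), by simp, (v (σ j), b), by simp, hX _ _ (hv _ _ h) hab⟩
    · intro i p hp
      rcases hp with rfl | hp
      · exact ⟨i, rfl⟩
      · rw [Set.mem_singleton_iff] at hp
        exact ⟨σ i, by rw [hp]⟩
    · intro i; simp
    · intro i; simp

/-- **Clique minors of direct products.** -/
theorem minor_dp (hX : ∀ p q : V × W, G.Adj p.1 q.1 → H.Adj p.2 q.2 → X.Adj p q)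
    (hH : ¬ H.Colorable 2) {ι : Type} [Finite ι] (h : CMt G ι) : CMt X ι := by
  classical
  have := Fintype.ofFinite ι
  rw [SimpleGraph.two_colorable_iff_forall_loop_even] at hH
  push Not at hH
  obtain ⟨a, w, hw⟩ := hH
  rw [Nat.not_even_iff_odd] at hw
  obtain ⟨b, hb, hab⟩ : ∃ b ∈ w.support, H.Adj a b := by
    cases w with
    | nil => simp at hw
    | @cons _ b _ h p => exact ⟨b, by simp, h⟩
  have ha : a ∈ w.support := by simp
  set S : Set W := {z | z ∈ w.support} with hS
  obtain ⟨f, hc, hd, hadj⟩ := h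
  set I : Set ι := {i | (f i).Subsingleton} with hI
  have hne : ∀ i, ∃ x, x ∈ f i := fun i => by
    obtain ⟨⟨x, hx⟩⟩ := (hc i).nonempty
    exact ⟨x, hx⟩
  choose v hv using hne
  have hvv : ∀ i : I, ∀ x ∈ f i, x = v i := fun i x hx => i.2 hx (hv i)
  have hvadj : ∀ i j : I, i ≠ j → G.Adj (v i) (v j) := by
    intro i j hij
    obtain ⟨x, hx, y, hy, hxy⟩ := hadj i j (fun h => hij (Subtype.ext h))
    rw [hvv i x hx, hvv j y hy] at hxy
    exact hxy
  obtain ⟨g, c, g1, g2, g3, g4, g5, g6⟩ := clique_part (X := X) (G := G) (H := H) hX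
    (fun i : I => v i) hvadj hab
  -- the neighbour of `c i` in the walk
  have hc' : ∀ i : I, ∃ z ∈ S, H.Adj (c i) z := by
    intro i
    rcases g6 i with h | h
    · exact ⟨b, hb, by rw [h]; exact hab⟩
    · exact ⟨a, ha, by rw [h]; exact hab.symm⟩
  set F : ι → Set (V × W) := fun i => if h : i ∈ I then g ⟨i, h⟩ else box (f i) S with hF
  have F1 : ∀ i (h : i ∈ I), F i = g ⟨i, h⟩ := fun i h => by simp only [hF, h, dif_pos]
  have F2 : ∀ i, i ∉ I → F i = box (f i) S := fun i h => by simp only [hF, h, dif_neg, not_false_iff]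
  -- a clique set and a box
  have mixD : ∀ i (_ : i ∈ I) j (_ : j ∉ I), Disjoint (F i) (F j) := by
    intro i hi j hj
    rw [F1 i hi, F2 j hj, Set.disjoint_left]
    intro p hp hq
    obtain ⟨k, hk⟩ := g4 _ p hp
    have hkj : (k : ι) ≠ j := fun h => hj (h ▸ k.2)
    exact Set.disjoint_left.1 (hd _ _ hkj) (hk ▸ hv k) hq.1
  have mixA : ∀ i (_ : i ∈ I) j (_ : j ∉ I), ∃ p ∈ F i, ∃ q ∈ F j, X.Adj p q := by
    intro i hi j hj
    rw [F1 i hi, F2 j hj]
    have hij : i ≠ j := fun h => hj (h ▸ hi)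
    obtain ⟨x, hx, y, hy, hxy⟩ := hadj i j hij
    rw [hvv ⟨i, hi⟩ x hx] at hxy
    obtain ⟨z, hz, hcz⟩ := hc' ⟨i, hi⟩
    exact ⟨_, g5 ⟨i, hi⟩, (y, z), ⟨hy, hz⟩, hX _ _ hxy hcz⟩
  refine ⟨F, ?_, ?_, ?_⟩
  · intro i
    by_cases hi : i ∈ I
    · rw [F1 i hi]; exact g1 _
    · rw [F2 i hi]; exact conn_box hX (hc i) hi w hw
  · intro i j hij
    by_cases hi : i ∈ I <;> by_cases hj : j ∈ I
    · rw [F1 i hi, F1 j hj]
      exact g2 _ _ (fun h => hij (congrArg Subtype.val h))
    · exact mixD i hi j hj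
    · exact (mixD j hj i hi).symm
    · rw [F2 i hi, F2 j hj, Set.disjoint_left]
      intro p hp hq
      exact Set.disjoint_left.1 (hd i j hij) hp.1 hq.1
  · intro i j hij
    by_cases hi : i ∈ I <;> by_cases hj : j ∈ I
    · rw [F1 i hi, F1 j hj]
      exact g3 _ _ (fun h => hij (congrArg Subtype.val h))
    · exact mixA i hi j hj
    · obtain ⟨p, hp, q, hq, h⟩ := mixA j hj i hi
      exact ⟨q, hq, p, hp, h.symm⟩
    · rw [F2 i hi, F2 j hj]
      obtain ⟨x, hx, y, hy, hxy⟩ := hadj i j hij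
      exact ⟨(x, a), ⟨hx, ha⟩, (y, b), ⟨hy, hb⟩, hX _ _ hxy hab⟩

/-- Bipartite graphs satisfy Hadwiger's conjecture. -/
theorem had_of_two {X : SimpleGraph V} (h : X.Colorable 2) : Had X := by
  intro k hk
  match k with
  | 0 =>
    have hne : Nonempty V := by
      by_contra hc
      rw [not_nonempty_iff] at hc
      exact hk ⟨SimpleGraph.Coloring.mk (fun x => (hc.false x).elim) (fun {u} => (hc.false u).elim)⟩
    obtain ⟨x⟩ := hne
    refine ⟨fun _ => {x}, fun _ => conn_single x, ?_, ?_⟩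
    · intro i j hij; exact absurd (Fin.ext (by omega)) hij
    · intro i j hij; exact absurd (Fin.ext (by omega)) hij
  | 1 =>
    obtain ⟨x, y, hxy⟩ : ∃ x y, X.Adj x y := by
      by_contra hc
      push Not at hc
      exact hk ⟨SimpleGraph.Coloring.mk (fun _ => 0) (fun {u v} h => absurd h (hc u v))⟩
    have e : ∀ i : Fin 2, i = 0 ∨ i = 1 := by decide
    refine ⟨fun i => if i = 0 then {x} else {y}, ?_, ?_, ?_⟩
    · intro i
      rcases e i with rfl | rfl
      · simpa using conn_single (X := X) x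
      · simpa using conn_single (X := X) y
    · intro i j hij
      rcases e i with rfl | rfl <;> rcases e j with rfl | rfl
      · exact absurd rfl hij
      · simp [hxy.ne]
      · simp [hxy.ne']
      · exact absurd rfl hij
    · intro i j hij
      rcases e i with rfl | rfl <;> rcases e j with rfl | rfl
      · exact absurd rfl hij
      · exact ⟨x, by simp, y, by simp, hxy⟩
      · exact ⟨y, by simp, x, by simp, hxy.symm⟩
      · exact absurd rfl hij
  | (k + 2) => exact absurd (h.mono (by omega)) hk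

theorem obo_of_had {X : SimpleGraph V} (h : Had X) : Obo X := by
  intro k hk
  exact CMt_emb (h k hk) (Fin.castSuccEmb)

/-- graphs between `G × H` and the blow-up of `G`, `H` not bipartite -/
theorem pass (hX : ∀ p q : V × W, G.Adj p.1 q.1 → H.Adj p.2 q.2 → X.Adj p q)
    (hup : ∀ p q : V × W, X.Adj p q → G.Adj p.1 q.1) (hH : ¬ H.Colorable 2) :
    (Obo G → Obo X) ∧ (Had G → Had X) := by
  have col : ∀ k, G.Colorable k → X.Colorable k := by
    rintro k ⟨C⟩
    exact ⟨SimpleGraph.Coloring.mk (fun p => C p.1) (fun {p q} h => C.valid (hup p q h))⟩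
  exact ⟨fun h k hk => minor_dp hX hH (h k (fun hc => hk (col k hc))),
    fun h k hk => minor_dp hX hH (h k (fun hc => hk (col k hc)))⟩

/-- direct products with arbitrary graphs -/
theorem pass_dp (G : SimpleGraph V) (H : SimpleGraph W) :
    (Obo G → Obo (dp G H)) ∧ (Had G → Had (dp G H)) := by
  by_cases hH : H.Colorable 2
  · have h2 : (dp G H).Colorable 2 := by
      obtain ⟨C⟩ := hH
      exact ⟨SimpleGraph.Coloring.mk (fun p => C p.2) (fun {p q} h => C.valid h.2)⟩
    exact ⟨fun _ => obo_of_had (had_of_two h2), fun _ => had_of_two h2⟩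
  · exact pass (fun p q h1 h2 => ⟨h1, h2⟩) (fun p q h => h.1) hH

end Pool.Agent.N397.DP
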