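import Pool.Agent.N397.DP.Main

/-!
# Clique minors of direct products from two stars (helper397)
-/

set_option autoImplicit false

namespace Pool.Agent.N397.DP

open Pool.Agent.R553.HW

variable {V W : Type} {G : SimpleGraph V} {H : SimpleGraph W} {X : SimpleGraph (V × W)}

/-- two stars with `s` leaves give `K_{s,s}` in the direct product, and so a `K_{s+1}` minor -/
theorem minor_star (hX : ∀ p q : V × W, G.Adj p.1 q.1 → H.Adj p.2 q.2 → X.Adj p q) (s : ℕ)
    (hs : 1 ≤ s) (u : V) (w : W) (b : Fin s → V) (a : Fin s → W) (hb : Function.Injective b)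
    (ha : Function.Injective a) (hub : ∀ i, G.Adj u (b i)) (hwa : ∀ i, H.Adj w (a i)) :
    CMt X (Fin (s + 1)) := by
  classical
  obtain ⟨r, rfl⟩ : ∃ r, s = r + 1 := ⟨s - 1, by omega⟩
  -- the index of the branch set
  let l : Fin (r + 1) := Fin.last r
  let P : Fin (r + 1 + 1) → Set (V × W) := fun i =>
    if h : (i : ℕ) < r then {(u, a ⟨i, by omega⟩), (b ⟨i, by omega⟩, w)}
    else if (i : ℕ) = r then {(u, a l)} else {(b l, w)}
  have hPX : ∀ i j, X.Adj (u, a i) (b j, w) := fun i j => hX _ _ (hub j) (hwa i).symm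
  have P1 : ∀ i : Fin (r + 1 + 1), ∀ h : (i : ℕ) < r,
      P i = {(u, a ⟨i, by omega⟩), (b ⟨i, by omega⟩, w)} := fun i h => by
    simp only [P, h, dif_pos]
  have P2 : ∀ i : Fin (r + 1 + 1), (i : ℕ) = r → P i = {(u, a l)} := fun i h => by
    simp only [P, h, lt_irrefl, dif_neg, not_false_iff, if_true]
  have P3 : ∀ i : Fin (r + 1 + 1), r < (i : ℕ) → P i = {(b l, w)} := fun i h => by
    have h1 : ¬ (i : ℕ) < r := by omega
    have h2 : ¬ (i : ℕ) = r := by omega
    simp only [P, h1, h2, dif_neg, if_neg, not_false_iff]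
  -- every branch set but the last one contains some `(u, a i)`, every one but the last but one some `(b i, w)`
  have A1 : ∀ i : Fin (r + 1 + 1), ∀ h : (i : ℕ) < r + 1, (u, a ⟨i, h⟩) ∈ P i := by
    intro i h
    rcases Nat.lt_or_ge (i : ℕ) r with h1 | h1
    · rw [P1 i h1]; simp
    · have h2 : (i : ℕ) = r := by omega
      rw [P2 i h2]
      have : (⟨i, h⟩ : Fin (r + 1)) = l := Fin.ext h2
      rw [this]; simp
  have A2 : ∀ i : Fin (r + 1 + 1), ∀ h : (i : ℕ) ≠ r, ∃ j, (b j, w) ∈ P i := by
    intro i h
    rcases Nat.lt_or_ge (i : ℕ) r with h1 | h1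
    · exact ⟨⟨i, by omega⟩, by rw [P1 i h1]; simp⟩
    · exact ⟨l, by rw [P3 i (by omega)]; simp⟩
  -- members
  have M : ∀ i : Fin (r + 1 + 1), ∀ p ∈ P i,
      (∃ h : (i : ℕ) < r + 1, p = (u, a ⟨i, h⟩)) ∨
        ((i : ℕ) ≠ r ∧ p = (b ⟨if (i : ℕ) < r then i else r, by split_ifs <;> omega⟩, w)) := by
    intro i p hp
    rcases Nat.lt_or_ge (i : ℕ) r with h1 | h1
    · rw [P1 i h1] at hp
      rcases hp with rfl | hp
      · left; exact ⟨by omega, rfl⟩
      · right
        rw [Set.mem_singleton_iff] at hp
        refine ⟨by omega, ?_⟩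
        rw [hp]
        simp [h1]
    · rcases Nat.eq_or_lt_of_le h1 with h2 | h2
      · rw [P2 i h2.symm, Set.mem_singleton_iff] at hp
        left
        refine ⟨by omega, ?_⟩
        rw [hp]
        have : (⟨i, by omega⟩ : Fin (r + 1)) = l := Fin.ext h2.symm
        rw [this]
      · rw [P3 i h2, Set.mem_singleton_iff] at hp
        right
        refine ⟨by omega, ?_⟩
        rw [hp]
        have h3 : ¬ (i : ℕ) < r := by omega
        simp only [h3, if_false]
        rfl
  refine ⟨P, ?_, ?_, ?_⟩
  · intro i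
    rcases Nat.lt_or_ge (i : ℕ) r with h1 | h1
    · rw [P1 i h1]; exact conn_pair (hPX _ _)
    · rcases Nat.eq_or_lt_of_le h1 with h2 | h2
      · rw [P2 i h2.symm]; exact conn_single _
      · rw [P3 i h2]; exact conn_single _
  · intro i j hij
    rw [Set.disjoint_left]
    intro p hp hq
    have hij' : (i : ℕ) ≠ (j : ℕ) := fun h => hij (Fin.ext h)
    rcases M i p hp with ⟨h1, e1⟩ | ⟨h1, e1⟩ <;> rcases M j p hq with ⟨h2, e2⟩ | ⟨h2, e2⟩
    · rw [e1] at e2
      have := ha (congrArg Prod.snd e2)
      rw [Fin.mk.injEq] at this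
      exact hij' this
    · rw [e1] at e2
      exact (hub _).ne (congrArg Prod.fst e2)
    · rw [e1] at e2
      exact (hub _).ne (congrArg Prod.fst e2).symm
    · rw [e1] at e2
      have h3 := hb (congrArg Prod.fst e2)
      have h4 := congrArg Fin.val h3
      simp only at h4
      split_ifs at h4 <;> omega
  · intro i j hij
    have hij' : (i : ℕ) ≠ (j : ℕ) := fun h => hij (Fin.ext h)
    -- one of them has a vertex of the first kind and the other one of the second kind
    by_cases h1 : (i : ℕ) < r + 1 ∧ (j : ℕ) ≠ r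
    · obtain ⟨k, hk⟩ := A2 j h1.2
      exact ⟨_, A1 i h1.1, _, hk, hPX _ _⟩
    · have h2 : (j : ℕ) < r + 1 := by
        by_contra hc
        apply h1
        have := i.2
        have := j.2
        omega
      have h3 : (i : ℕ) ≠ r := by
        by_contra hc
        apply h1
        have := i.2
        have := j.2
        omega
      obtain ⟨k, hk⟩ := A2 i h3
      exact ⟨_, hk, _, A1 j h2, (hPX _ _).symm⟩

/-- greedy colouring -/
theorem greedy [Finite V] (G : SimpleGraph V) (k : ℕ)
    (h : ∀ (v : V) (b : Fin k → V), Function.Injective b → ¬ ∀ i, G.Adj v (b i)) :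
    G.Colorable k := by
  classical
  have := Fintype.ofFinite V
  have hdeg : ∀ v, G.degree v < k := by
    intro v
    by_contra hc
    push Not at hc
    rw [← SimpleGraph.card_neighborFinset_eq_degree] at hc
    obtain ⟨t, ht1, ht2⟩ := Finset.exists_subset_card_eq hc
    have e := t.equivFinOfCardEq ht2
    refine h v (fun i => (e.symm i : V)) (fun i j hij => e.symm.injective (Subtype.ext hij)) ?_
    intro i
    have := ht1 (e.symm i).2
    rwa [SimpleGraph.mem_neighborFinset] at this
  have claim : ∀ s : Finset V, ∃ c : V → Fin k, ∀ x ∈ s, ∀ y ∈ s, G.Adj x y → c x ≠ c y := by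
    intro s
    induction s using Finset.induction_on with
    | empty =>
      by_cases hV : Nonempty V
      · obtain ⟨v⟩ := hV
        have hk : 0 < k := lt_of_le_of_lt (Nat.zero_le _) (hdeg v)
        exact ⟨fun _ => ⟨0, hk⟩, by simp⟩
      · rw [not_nonempty_iff] at hV
        exact ⟨fun v => (hV.false v).elim, by simp⟩
    | insert v s hv ih =>
      obtain ⟨c, hc⟩ := ih
      obtain ⟨a, ha⟩ : ∃ a : Fin k, a ∉ (G.neighborFinset v).image c := by
        by_contra hcon
        push Not at hcon
        have h1 : (Finset.univ : Finset (Fin k)) ⊆ (G.neighborFinset v).image c := fun a _ => hcon a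
        have h2 := Finset.card_le_card h1
        rw [Finset.card_univ, Fintype.card_fin] at h2
        have h3 : ((G.neighborFinset v).image c).card ≤ (G.neighborFinset v).card :=
          Finset.card_image_le
        rw [SimpleGraph.card_neighborFinset_eq_degree] at h3
        have := hdeg v
        omega
      have ha' : ∀ y, G.Adj v y → c y ≠ a := by
        intro y hy hcy
        apply ha
        rw [Finset.mem_image]
        exact ⟨y, by rwa [SimpleGraph.mem_neighborFinset], hcy⟩
      refine ⟨fun x => if x = v then a else c x, ?_⟩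
      intro x hx y hy hxy
      by_cases h1 : x = v
      · have h2 : y ≠ v := fun h2 => hxy.ne (h1.trans h2.symm)
        simp only [h1, h2, if_true, if_false]
        rw [h1] at hxy
        exact (ha' y hxy).symm
      · by_cases h2 : y = v
        · simp only [h1, h2, if_true, if_false]
          rw [h2] at hxy
          exact ha' x hxy.symm
        · simp only [h1, h2, if_false]
          rw [Finset.mem_insert] at hx hy
          exact hc x (hx.resolve_left h1) y (hy.resolve_left h2) hxy
  obtain ⟨c, hc⟩ := claim Finset.univ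
  exact ⟨SimpleGraph.Coloring.mk c (fun {x y} h => hc x (Finset.mem_univ _) y (Finset.mem_univ _) h)⟩

/-- `H` has a vertex with at least as many neighbours as every vertex of `G` -/
def Dominates (H : SimpleGraph W) (G : SimpleGraph V) : Prop :=
  ∃ w : W, ∀ (v : V) (s : ℕ) (b : Fin s → V), Function.Injective b → (∀ i, G.Adj v (b i)) →
    ∃ a : Fin s → W, Function.Injective a ∧ ∀ i, H.Adj w (a i)

/-- Hadwiger's conjecture for the graphs between `G × H` and the blow-up of `G` if `H` has a vertex
of large degree -/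
theorem had_blow [Finite V] (hX : ∀ p q : V × W, G.Adj p.1 q.1 → H.Adj p.2 q.2 → X.Adj p q)
    (hup : ∀ p q : V × W, X.Adj p q → G.Adj p.1 q.1) (hD : Dominates H G) :
    Had X := by
  intro k hk
  have hG : ¬ G.Colorable k := by
    rintro ⟨C⟩
    exact hk ⟨SimpleGraph.Coloring.mk (fun p => C p.1) (fun {p q} h => C.valid (hup p q h))⟩
  obtain ⟨v, b, hb, hvb⟩ : ∃ (v : V) (b : Fin k → V), Function.Injective b ∧ ∀ i, G.Adj v (b i) := by
    by_contra hc
    push Not at hc
    refine hG (greedy G k fun v b hb hcon => ?_)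
    obtain ⟨i, hi⟩ := hc v b hb
    exact hi (hcon i)
  obtain ⟨w, hw⟩ := hD
  obtain ⟨a, ha, hwa⟩ := hw v k b hb hvb
  rcases Nat.eq_zero_or_pos k with h0 | h0
  · subst h0
    refine ⟨fun _ => {(v, w)}, fun _ => conn_single _, ?_, ?_⟩
    · intro i j hij; exact absurd (Fin.ext (by omega)) hij
    · intro i j hij; exact absurd (Fin.ext (by omega)) hij
  · exact minor_star hX k h0 v w b a hb ha hvb hwa

/-- **Hadwiger's conjecture for direct products.** -/
theorem had_dp [Finite V] [Finite W] (G : SimpleGraph V) (H : SimpleGraph W) : Had (dp G H) := by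
  intro k hk
  have hG : ¬ G.Colorable k := by
    rintro ⟨C⟩
    exact hk ⟨SimpleGraph.Coloring.mk (fun p => C p.1) (fun {p q} h => C.valid h.1)⟩
  have hH : ¬ H.Colorable k := by
    rintro ⟨C⟩
    exact hk ⟨SimpleGraph.Coloring.mk (fun p => C p.2) (fun {p q} h => C.valid h.2)⟩
  obtain ⟨v, b, hb, hvb⟩ : ∃ (v : V) (b : Fin k → V), Function.Injective b ∧ ∀ i, G.Adj v (b i) := by
    by_contra hc
    push Not at hc
    refine hG (greedy G k fun v b hb hcon => ?_)
    obtain ⟨i, hi⟩ := hc v b hb
    exact hi (hcon i)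
  obtain ⟨w, a, ha, hwa⟩ : ∃ (w : W) (a : Fin k → W), Function.Injective a ∧ ∀ i, H.Adj w (a i) := by
    by_contra hc
    push Not at hc
    refine hH (greedy H k fun w a ha hcon => ?_)
    obtain ⟨i, hi⟩ := hc w a ha
    exact hi (hcon i)
  rcases Nat.eq_zero_or_pos k with h0 | h0
  · subst h0
    refine ⟨fun _ => {(v, w)}, fun _ => conn_single _, ?_, ?_⟩
    · intro i j hij; exact absurd (Fin.ext (by omega)) hij
    · intro i j hij; exact absurd (Fin.ext (by omega)) hij
  · exact minor_star (G := G) (H := H) (X := dp G H) (fun p q h1 h2 => ⟨h1, h2⟩) k h0 v w b a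
      hb ha hvb hwa

end Pool.Agent.N397.DP
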